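import Pool.Agent.helper90.BG.Pure
import Pool.Agent.helper52.BG.PB
import Pool.Agent.helper97.BG.Basic

/-!
# Module CAN: the canonical class (chart statement)
-/

namespace Pool.Agent.helper97.BG

open Module

variable {k K : Type*} [Field k] [Field K] [Algebra k K]

namespace CU90

theorem BVV [CharP k 2] {d : PD k K} {B : Derivation k K (Derivation k K K)}
    (hB : IsBr d B) (i j : Fin 5) : B (d.V i) (d.V j) ∈ d.O := by
  have h2 : (2 : K) = 0 := two_eq_zero k K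
  have hadj : ∀ i, B (d.V i) (d.V (i + 1)) ∈ d.O := fun i => by
    rw [hB.adj i]
    exact mul_mem (mul_mem (pow_mem (d.V_mem_O _) _) (pow_mem (d.V_mem_O _) _))
      (pow_mem (d.V_mem_O _) _)
  have htwo : ∀ i, B (d.V i) (d.V (i + 2)) ∈ d.O := fun i => by
    rw [hB.two i]
    exact mul_mem (mul_mem (d.V_mem_O _) (d.V_mem_O _))
      (prod_mem fun j _ => pow_mem (d.V_mem_O _) _)
  obtain ⟨a1, a2, a3, a4, b1, b2, b3, b4, c1, c2, c3, c4, e1, e2, e3, e4⟩ := ix i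
  rcases ix_cases i j with rfl | rfl | rfl | rfl | rfl
  · rw [hB.alt]; exact d.O.zero_mem
  · exact hadj i
  · exact htwo i
  · have h := htwo (i + 3)
    rw [c2, BR.symm2 h2 hB.alt] at h
    exact h
  · have h := hadj (i + 4)
    rw [e1, BR.symm2 h2 hB.alt] at h
    exact h

theorem BVy [CharP k 2] {d : PD k K} {B : Derivation k K (Derivation k K K)}
    (hB : IsBr d B) (i : Fin 5) : d.y ^ 4 * B (d.V i) d.y ∈ d.O := by
  rw [hB.y]
  exact sum_mem fun j _ => mul_mem (mul_mem (d.O.algebraMap_mem _) (pow_mem (d.V_mem_O _) _))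
    (BVV hB i j)

end CU90

open CU90

theorem PD.can_mem [CharP k 2] (d : PD k K) {B : Derivation k K (Derivation k K K)}
    (hB : IsBr d B) {f h : K} (hf : f ∈ d.O) (hh : h ∈ d.O) : d.y ^ 4 * B f h ∈ d.O := by
  have h2 : (2 : K) = 0 := two_eq_zero k K
  have hy4 : d.y ^ 4 ∈ d.O := pow_mem d.y_mem_O 4
  have hg : ∀ f ∈ (insert d.y (Set.range d.V) : Set K), ∀ h ∈ (insert d.y (Set.range d.V) : Set K),
      d.y ^ 4 * B f h ∈ d.O := by
    rintro f (rfl | ⟨i, rfl⟩) h (rfl | ⟨j, rfl⟩)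
    · rw [hB.alt, mul_zero]; exact d.O.zero_mem
    · rw [BR.symm2 h2 hB.alt]; exact BVy hB j
    · exact BVy hB i
    · exact mul_mem hy4 (BVV hB i j)
  have h1 : ∀ f ∈ (insert d.y (Set.range d.V) : Set K), ∀ h ∈ d.O, d.y ^ 4 * B f h ∈ d.O := by
    intro f hf h hh
    have hfO : f ∈ d.O := Algebra.subset_adjoin hf
    unfold PD.O at hh
    induction hh using Algebra.adjoin_induction with
    | mem h hh => exact hg f hf h hh
    | algebraMap r => rw [Derivation.map_algebraMap, mul_zero]; exact d.O.zero_mem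
    | add a b _ _ ha hb => rw [map_add, mul_add]; exact d.O.add_mem ha hb
    | mul a b haO hbO ha hb =>
      rw [Derivation.leibniz]
      have e : d.y ^ 4 * (a • B f b + b • B f a) = a * (d.y ^ 4 * B f b) + b * (d.y ^ 4 * B f a) := by
        simp only [smul_eq_mul]; ring
      rw [e]
      exact d.O.add_mem (d.O.mul_mem haO hb) (d.O.mul_mem hbO ha)
  unfold PD.O at hf
  induction hf using Algebra.adjoin_induction with
  | mem f hf => exact h1 f hf h hh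
  | algebraMap r =>
    rw [Derivation.map_algebraMap, Derivation.coe_zero, Pi.zero_apply, mul_zero]
    exact d.O.zero_mem
  | add a b _ _ ha hb =>
    rw [map_add, Derivation.add_apply, mul_add]; exact d.O.add_mem ha hb
  | mul a b haO hbO ha hb =>
    rw [Derivation.leibniz, Derivation.add_apply, Derivation.smul_apply, Derivation.smul_apply]
    have e : d.y ^ 4 * (a • B b h + b • B a h) = a * (d.y ^ 4 * B b h) + b * (d.y ^ 4 * B a h) := by
      simp only [smul_eq_mul]; ring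
    rw [e]
    exact d.O.add_mem (d.O.mul_mem haO hb) (d.O.mul_mem hbO ha)

namespace CU90

/-- the pentagon relations in `K` -/
theorem pentK (d : PD k K) : Pent d.V d.y (fun i => algebraMap k K (d.c i)) where
  rel := d.rel
  yrel := d.yrel

/-- the pentagon relations in `O` -/
theorem pentO (d : PD k K) : Pent (fun i => (⟨d.V i, d.V_mem_O i⟩ : d.O)) ⟨d.y, d.y_mem_O⟩
    (fun i => algebraMap k d.O (d.c i)) where
  rel i := Subtype.ext (d.rel i)
  yrel := Subtype.ext (by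
    have h := d.yrel
    simpa using h)

/-- the values of the bracket, rotated -/
theorem brRot [CharP k 2] {d : PD k K} {B : Derivation k K (Derivation k K K)}
    (hB : IsBr d B) (i : Fin 5) {x : Fin 5 → K} (hx : x = fun j => d.V (j + i)) :
    (∀ j, B (x j) (x (j + 1)) = x (j + 3) ^ 9 * x (j + 2) ^ 4 * x (j + 4) ^ 4) ∧
    (∀ j, B (x j) (x (j + 2)) = x j * x (j + 2) * (x 0 * x 1 * x 2 * x 3 * x 4) ^ 4) := by
  constructor
  · intro j
    have h := hB.adj (j + i)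
    subst hx
    simp only [add_right_comm _ i] at h ⊢
    exact h
  · intro j
    have h := hB.two (j + i)
    rw [← Equiv.prod_comp (Equiv.addRight i) (fun j => d.V j ^ 4), Fin.prod_univ_five] at h
    subst hx
    simp only [add_right_comm _ i, Equiv.coe_addRight] at h ⊢
    rw [h]
    ring

theorem key [CharP k 2] {d : PD k K} {B : Derivation k K (Derivation k K K)}
    (hB : IsBr d B) (i : Fin 5) {x c : Fin 5 → K} (hx : x = fun j => d.V (j + i))
    (hc : c = fun j => algebraMap k K (d.c (j + i))) :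
    d.y ^ 4 * B (x 0) d.y = (x 1 * x 2 * x 3 * x 4) ^ 4 * (YY x c - x 0 ^ 5 * d.y ^ 5) ∧
    d.y ^ 4 * B (x 1) d.y = (x 0 * x 2 * x 3 * x 4) ^ 4 * (XX x c - x 1 ^ 5 * d.y ^ 5) := by
  have h2 : (2 : K) = 0 := two_eq_zero k K
  have hP : Pent x d.y c := by rw [hx, hc]; exact (pentK d).rot i
  obtain ⟨hadj, htwo⟩ := brRot hB i hx
  have b01 : B (x 0) (x 1) = x 3 ^ 9 * x 2 ^ 4 * x 4 ^ 4 := hadj 0
  have b12 : B (x 1) (x 2) = x 4 ^ 9 * x 3 ^ 4 * x 0 ^ 4 := hadj 1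
  have b40 : B (x 4) (x 0) = x 2 ^ 9 * x 1 ^ 4 * x 3 ^ 4 := hadj 4
  have b02 : B (x 0) (x 2) = x 0 * x 2 * (x 0 * x 1 * x 2 * x 3 * x 4) ^ 4 := htwo 0
  have b13 : B (x 1) (x 3) = x 1 * x 3 * (x 0 * x 1 * x 2 * x 3 * x 4) ^ 4 := htwo 1
  have b30 : B (x 3) (x 0) = x 3 * x 0 * (x 0 * x 1 * x 2 * x 3 * x 4) ^ 4 := htwo 3
  have b41 : B (x 4) (x 1) = x 4 * x 1 * (x 0 * x 1 * x 2 * x 3 * x 4) ^ 4 := htwo 4
  have hy : ∀ f, d.y ^ 4 * B f d.y = ∑ j, c j * x j ^ 4 * B f (x j) := by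
    intro f
    rw [hB.y, hx, hc]
    exact (Equiv.sum_comp (Equiv.addRight i)
      (fun j => algebraMap k K (d.c j) * d.V j ^ 4 * B f (d.V j))).symm
  have r0 : x 0 ^ 5 + x 2 ^ 5 * x 3 ^ 5 = 1 := hP.rel 0
  have r1 : x 1 ^ 5 + x 3 ^ 5 * x 4 ^ 5 = 1 := hP.rel 1
  have r2 : x 2 ^ 5 + x 4 ^ 5 * x 0 ^ 5 = 1 := hP.rel 2
  have r3 : x 3 ^ 5 + x 0 ^ 5 * x 1 ^ 5 = 1 := hP.rel 3
  have r4 : x 4 ^ 5 + x 1 ^ 5 * x 2 ^ 5 = 1 := hP.rel 4
  have hyr := hP.yrel
  rw [Fin.sum_univ_five] at hyr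
  unfold XX YY
  constructor
  · rw [hy, Fin.sum_univ_five, hB.alt, b01, b02, BR.symm2 h2 hB.alt (x 0) (x 3), b30,
      BR.symm2 h2 hB.alt (x 0) (x 4), b40, hyr]
    linear_combination (-(x 1 * x 2 * x 3 * x 4) ^ 4 * (c 1 * r3 + c 4 * r2))
      + (x 1 * x 2 * x 3 * x 4) ^ 4 * (c 1 * x 0 ^ 5 * x 1 ^ 5 + c 4 * x 0 ^ 5 * x 4 ^ 5
        + c 2 * x 0 ^ 5 * x 2 ^ 5 + c 3 * x 0 ^ 5 * x 3 ^ 5 - c 1 + c 1 * x 3 ^ 5 - c 4
        + c 4 * x 2 ^ 5) * h2
  · rw [hy, Fin.sum_univ_five, hB.alt, BR.symm2 h2 hB.alt (x 1) (x 0), b01, b12, b13,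
      BR.symm2 h2 hB.alt (x 1) (x 4), b41, hyr]
    linear_combination (-(x 0 * x 2 * x 3 * x 4) ^ 4 * (c 0 * r3 + c 2 * r4))
      + (x 0 * x 2 * x 3 * x 4) ^ 4 * (-c 0 + c 0 * x 3 ^ 5 + c 0 * x 0 ^ 5 * x 1 ^ 5 - c 2
        + c 4 * x 1 ^ 5 * x 4 ^ 5 + c 2 * x 4 ^ 5 + c 2 * x 1 ^ 5 * x 2 ^ 5
        + c 3 * x 1 ^ 5 * x 3 ^ 5) * h2

theorem XX_map {R S : Type*} [CommRing R] [CommRing S] (f : R →+* S) (x c : Fin 5 → R) :
    f (XX x c) = XX (fun i => f (x i)) (fun i => f (c i)) := by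
  simp [XX]

theorem YY_map {R S : Type*} [CommRing R] [CommRing S] (f : R →+* S) (x c : Fin 5 → R) :
    f (YY x c) = YY (fun i => f (x i)) (fun i => f (c i)) := by
  simp [YY]

/-- admissibility gives the hypotheses of `core` in every domain over `k` -/
theorem adm_core {k : Type*} [Field k] {c : Fin 5 → k} (hc : Adm c) {R : Type*} [CommRing R]
    [Nontrivial R] (f : k →+* R) (i : Fin 5) :
    f (c (4 + i)) + f (c (1 + i)) ≠ 0 ∧ f (c (0 + i)) + f (c (2 + i)) ≠ 0 ∧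
    f (c (2 + i)) + f (c (3 + i)) + f (c (4 + i)) ≠ 0 ∧
    ∑ j, f (c (j + i)) * f (c (j + 1 + i)) * f (c (j + 2 + i)) ≠ 0 := by
  have hf : ∀ a, a ≠ 0 → f a ≠ 0 := fun a ha h => ha ((map_eq_zero f).1 h)
  refine ⟨?_, ?_, ?_, ?_⟩
  · have h := hf _ (hc.two (4 + i))
    rwa [map_add, add_right_comm 4 i 2] at h
  · have h := hf _ (hc.two (0 + i))
    rwa [map_add, add_right_comm 0 i 2] at h
  · have h := hf _ (hc.three (2 + i))
    rwa [map_add, map_add, add_right_comm 2 i 1, add_right_comm 2 i 2] at h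
  · have h := hf _ hc.disc
    rw [← Equiv.sum_comp (Equiv.addRight i), map_sum] at h
    simpa only [Equiv.coe_addRight, map_mul, add_right_comm _ i] using h

theorem can_aux [CharP k 2] (d : PD k K) (hc : Adm d.c)
    {B : Derivation k K (Derivation k K K)} (hB : IsBr d B) (p : Ideal d.O) [p.IsPrime]
    (hp : ∀ f ∈ d.O, ∀ h ∈ d.O, ∀ z : d.O, (z : K) = d.y ^ 4 * B f h → z ∈ p) : False := by
  have h2k : (2 : k) = 0 := by exact_mod_cast CharP.cast_eq_zero k 2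
  have h2 : (2 : d.O ⧸ p) = 0 := by
    have := congrArg (algebraMap k (d.O ⧸ p)) h2k
    rwa [map_ofNat, map_zero] at this
  set π := Ideal.Quotient.mk p with hπ
  set X : Fin 5 → d.O := fun i => ⟨d.V i, d.V_mem_O i⟩ with hX
  set Y : d.O := ⟨d.y, d.y_mem_O⟩ with hY
  set C : Fin 5 → d.O := fun i => algebraMap k d.O (d.c i) with hC
  have P : Pent (fun i => π (X i)) (π Y) (fun i => π (C i)) := (pentO d).map π
  obtain ⟨i, t2, t3, t4⟩ := P.triple
  have P' := P.rot i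
  obtain ⟨k1, k2⟩ := key hB i (x := fun j => d.V (j + i)) (c := fun j => algebraMap k K (d.c (j + i)))
    rfl rfl
  have hη : π Y = 0 := by
    have hz : Y ^ 4 * (X (3 + i) ^ 9 * X (2 + i) ^ 4 * X (4 + i) ^ 4) ∈ p := by
      refine hp _ (d.V_mem_O (0 + i)) _ (d.V_mem_O (1 + i)) _ ?_
      rw [(brRot hB i rfl).1 0 |> fun h : B (d.V (0 + i)) (d.V (1 + i)) = _ => h]
      rfl
    have hz' := Ideal.Quotient.eq_zero_iff_mem.2 hz
    rw [← hπ] at hz'
    simp only [map_mul, map_pow] at hz'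
    by_contra hne
    exact (mul_ne_zero (pow_ne_zero 4 hne) (mul_ne_zero (mul_ne_zero (pow_ne_zero 9 t3)
      (pow_ne_zero 4 t2)) (pow_ne_zero 4 t4))) hz'
  obtain ⟨a1, a2, a3, a4⟩ := adm_core hc (π.comp (algebraMap k d.O)) i
  refine core h2 P' hη a1 a2 a3 a4 ?_ ?_
  · have hz : (X (0 + i) * X (2 + i) * X (3 + i) * X (4 + i)) ^ 4 *
        (XX (fun j => X (j + i)) (fun j => C (j + i)) - X (1 + i) ^ 5 * Y ^ 5) ∈ p := by
      refine hp _ (d.V_mem_O (1 + i)) _ d.y_mem_O _ ?_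
      rw [k2]
      rfl
    have hz' := Ideal.Quotient.eq_zero_iff_mem.2 hz
    rw [← hπ] at hz'
    simp only [map_mul, map_pow, map_sub, hη, XX_map] at hz'
    have e : (π (X (2 + i)) * π (X (3 + i)) * π (X (4 + i))) ^ 4 *
      (π (X (0 + i)) ^ 4 * XX (fun j => π (X (j + i))) (fun j => π (C (j + i)))) = 0 := by
      linear_combination hz'
    exact (mul_eq_zero.1 e).resolve_left (pow_ne_zero _ (mul_ne_zero (mul_ne_zero t2 t3) t4))
  · have hz : (X (1 + i) * X (2 + i) * X (3 + i) * X (4 + i)) ^ 4 *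
        (YY (fun j => X (j + i)) (fun j => C (j + i)) - X (0 + i) ^ 5 * Y ^ 5) ∈ p := by
      refine hp _ (d.V_mem_O (0 + i)) _ d.y_mem_O _ ?_
      rw [k1]
      rfl
    have hz' := Ideal.Quotient.eq_zero_iff_mem.2 hz
    rw [← hπ] at hz'
    simp only [map_mul, map_pow, map_sub, hη, YY_map] at hz'
    have e : (π (X (2 + i)) * π (X (3 + i)) * π (X (4 + i))) ^ 4 *
      (π (X (1 + i)) ^ 4 * YY (fun j => π (X (j + i))) (fun j => π (C (j + i)))) = 0 := by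
      linear_combination hz'
    exact (mul_eq_zero.1 e).resolve_left (pow_ne_zero _ (mul_ne_zero (mul_ne_zero t2 t3) t4))

end CU90

theorem PD.can_span [CharP k 2] (d : PD k K) (hc : Adm d.c)
    {B : Derivation k K (Derivation k K K)} (hB : IsBr d B) :
    (1 : K) ∈ Submodule.span d.O {x | ∃ f ∈ d.O, ∃ h ∈ d.O, x = d.y ^ 4 * B f h} := by
  have hIt : Ideal.span {z : d.O | ∃ f ∈ d.O, ∃ h ∈ d.O, (z : K) = d.y ^ 4 * B f h} = ⊤ := by
    by_contra hne
    obtain ⟨m, hm, hle⟩ := Ideal.exists_le_maximal _ hne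
    have := hm.isPrime
    exact can_aux d hc hB m fun f hf h hh z hz => hle (Ideal.subset_span ⟨f, hf, h, hh, hz⟩)
  have h1 : (1 : d.O) ∈ Ideal.span {z : d.O | ∃ f ∈ d.O, ∃ h ∈ d.O, (z : K) = d.y ^ 4 * B f h} := by
    rw [hIt]; trivial
  have h3 := Submodule.mem_map_of_mem (f := (Algebra.linearMap d.O K)) h1
  rw [Ideal.span, Submodule.map_span] at h3
  refine Submodule.span_mono ?_ h3
  rintro x ⟨z, ⟨f, hf, h, hh, hz⟩, rfl⟩
  exact ⟨f, hf, h, hh, hz⟩

end Pool.Agent.helper97.BG
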