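import Pool.Agent.helper52.BG.PB
import Pool.Agent.helper90.BG.CAN

/-!
# Module DET: the determinant (chart statement)
-/

namespace Pool.Agent.helper97.BG

open Module

variable {k K : Type*} [Field k] [Field K] [Algebra k K]

namespace CU90

/-- The basis `1, V 0, V 1, V 0 V 1` of `Fr K`. -/
noncomputable def bas [IsAlgClosed k] [CharP k 2] [CharP K 2] (d : PD k K) :
    Basis (Fin 4) K (Fr K) :=
  Basis.mk (PB.linInd d) (PB.span_b d)

theorem bas_coe [IsAlgClosed k] [CharP k 2] [CharP K 2] (d : PD k K) :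
    (⇑(bas d) : Fin 4 → Fr K) = PB.b d := Basis.coe_mk _ _

theorem bas_repr [IsAlgClosed k] [CharP k 2] [CharP K 2] (d : PD k K) (z : Fin 4 → K) :
    ⇑((bas d).repr (Fr.mk (PB.val d z))) = z := by
  have h := (bas d).repr_sum_self z
  rw [bas_coe, PB.sum_b] at h
  exact h

/-- coordinates of a product -/
def prd (a b : K) (z w : Fin 4 → K) : Fin 4 → K :=
  ![z 0 * w 0 + z 1 * w 1 * a + z 2 * w 2 * b + z 3 * w 3 * a * b,
    z 0 * w 1 + z 1 * w 0 + b * (z 2 * w 3 + z 3 * w 2),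
    z 0 * w 2 + z 2 * w 0 + a * (z 1 * w 3 + z 3 * w 1),
    z 0 * w 3 + z 3 * w 0 + z 1 * w 2 + z 2 * w 1]

/-- the element with given coordinates -/
def vl (a b : K) (z : Fin 4 → K) : K := z 0 ^ 2 + z 1 ^ 2 * a + z 2 ^ 2 * b + z 3 ^ 2 * (a * b)

theorem vl_prd (h2 : (2 : K) = 0) (a b : K) (z w : Fin 4 → K) :
    vl a b z * vl a b w = vl a b (prd a b z w) := by
  simp only [vl, prd, Matrix.cons_val]
  linear_combination (- 2 * a * w 0 * w 1 * z 0 * z 1 - 2 * b * w 0 * w 2 * z 0 * z 2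
    - 2 * a * b * w 0 * w 3 * z 0 * z 3 - 2 * a * b * w 1 * w 2 * z 1 * z 2
    - 2 * a ^ 2 * b * w 1 * w 3 * z 1 * z 3 - 2 * a * b ^ 2 * w 2 * w 3 * z 2 * z 3
    - 2 * a * b * w 1 * w 3 * z 0 * z 2 - 2 * a * b * w 1 * w 2 * z 0 * z 3
    - 2 * a * b * w 0 * w 3 * z 1 * z 2 - 2 * a * b * w 0 * w 2 * z 1 * z 3
    - 2 * a * b * w 2 * w 3 * z 0 * z 1 - 2 * a * b * w 0 * w 1 * z 2 * z 3) * h2

theorem vl_add (h2 : (2 : K) = 0) (a b : K) (z w : Fin 4 → K) :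
    vl a b z + vl a b w = vl a b (z + w) := by
  simp only [vl, Pi.add_apply]
  linear_combination (- w 0 * z 0 - a * w 1 * z 1 - b * w 2 * z 2 - a * b * w 3 * z 3) * h2

theorem vl_one (a b : K) : vl a b ![1, 0, 0, 0] = 1 := by
  simp [vl]

theorem sq_vl (a b s : K) (z : Fin 4 → K) : s ^ 2 * vl a b z = vl a b (fun i => s * z i) := by
  simp only [vl]; ring

end CU90

open CU90

theorem PD.exists_det [IsAlgClosed k] [CharP k 2] [CharP K 2] (d : PD k K)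
    {B : Derivation k K (Derivation k K K)} (hB : IsBr d B) :
    ∃ D : Fr K [⋀^Fin 4]→ₗ[K] K,
      ∀ f h : K, D ![Fr.mk 1, Fr.mk f, Fr.mk h, Fr.mk (f * h)] = B f h := by
  have h2 : (2 : K) = 0 := two_eq_zero k K
  refine ⟨B (d.V 0) (d.V 1) • (bas d).det, fun f h => ?_⟩
  obtain ⟨z, rfl⟩ := d.pbasis f
  obtain ⟨w, rfl⟩ := d.pbasis h
  change (B (d.V 0) (d.V 1) • (bas d).det) ![Fr.mk 1, Fr.mk (vl (d.V 0) (d.V 1) z),
    Fr.mk (vl (d.V 0) (d.V 1) w), Fr.mk (vl (d.V 0) (d.V 1) z * vl (d.V 0) (d.V 1) w)] =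
    B (PB.val d z) (PB.val d w)
  have hBe : B (PB.val d z) (PB.val d w) = B (d.V 0) (d.V 1) *
      ((w 1 ^ 2 + w 3 ^ 2 * d.V 1) * (z 2 ^ 2 + z 3 ^ 2 * d.V 0) +
        (w 2 ^ 2 + w 3 ^ 2 * d.V 0) * (z 1 ^ 2 + z 3 ^ 2 * d.V 1)) := by
    rw [PB.der_val h2, BR.symm2 h2 hB.alt (PB.val d z) (d.V 0),
      BR.symm2 h2 hB.alt (PB.val d z) (d.V 1), PB.der_val h2, PB.der_val h2,
      hB.alt, hB.alt, BR.symm2 h2 hB.alt (d.V 1) (d.V 0)]
    ring
  rw [vl_prd h2, AlternatingMap.smul_apply, Basis.det_apply, hBe, smul_eq_mul]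
  congr 1
  have e : (bas d).toMatrix ![Fr.mk 1, Fr.mk (vl (d.V 0) (d.V 1) z),
      Fr.mk (vl (d.V 0) (d.V 1) w), Fr.mk (vl (d.V 0) (d.V 1) (prd (d.V 0) (d.V 1) z w))] =
      !![1, z 0, w 0, prd (d.V 0) (d.V 1) z w 0; 0, z 1, w 1, prd (d.V 0) (d.V 1) z w 1;
        0, z 2, w 2, prd (d.V 0) (d.V 1) z w 2; 0, z 3, w 3, prd (d.V 0) (d.V 1) z w 3] := by
    ext i j
    rw [Basis.toMatrix_apply]
    fin_cases j
    · change (bas d).repr (Fr.mk 1) i = _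
      have e1 : (1 : K) = PB.val d ![1, 0, 0, 0] := (vl_one (d.V 0) (d.V 1)).symm
      have e2 : (bas d).repr (Fr.mk 1) i = (![1, 0, 0, 0] : Fin 4 → K) i := by
        rw [show (Fr.mk (1 : K)) = Fr.mk (PB.val d ![1, 0, 0, 0]) from congrArg _ e1, bas_repr]
      rw [e2]
      fin_cases i <;> rfl
    · change (bas d).repr (Fr.mk (PB.val d _)) i = _
      rw [bas_repr]
      fin_cases i <;> rfl
    · change (bas d).repr (Fr.mk (PB.val d _)) i = _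
      rw [bas_repr]
      fin_cases i <;> rfl
    · change (bas d).repr (Fr.mk (PB.val d _)) i = _
      rw [bas_repr]
      fin_cases i <;> rfl
  rw [e]
  rw [Matrix.det_succ_column_zero, Fin.sum_univ_four]
  simp only [Matrix.of_apply, Matrix.cons_val]
  rw [Matrix.det_fin_three]
  simp
  simp only [prd, Matrix.cons_val]
  linear_combination (-(d.V 0 * w 3 ^ 2 * z 1 ^ 2) - w 1 ^ 2 * z 2 ^ 2 - d.V 1 * w 2 ^ 2 * z 3 ^ 2
    - d.V 0 * d.V 1 * w 3 ^ 2 * z 3 ^ 2) * h2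

namespace CU90

theorem vl_mul_mem {A : Subalgebra k K} {s : K} {z : Fin 4 → K} (hs : s ∈ A)
    (hz : ∀ j, z j ∈ A) : ∀ j, (fun j => s * z j) j ∈ A := fun j => mul_mem hs (hz j)

theorem prd_mem {A : Subalgebra k K} {a b : K} (ha : a ∈ A) (hb : b ∈ A) {z w : Fin 4 → K}
    (hz : ∀ j, z j ∈ A) (hw : ∀ j, w j ∈ A) (j : Fin 4) : prd a b z w j ∈ A := by
  fin_cases j
  · exact add_mem (add_mem (add_mem (mul_mem (hz 0) (hw 0)) (mul_mem (mul_mem (hz 1) (hw 1)) ha))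
      (mul_mem (mul_mem (hz 2) (hw 2)) hb)) (mul_mem (mul_mem (mul_mem (hz 3) (hw 3)) ha) hb)
  · exact add_mem (add_mem (mul_mem (hz 0) (hw 1)) (mul_mem (hz 1) (hw 0)))
      (mul_mem hb (add_mem (mul_mem (hz 2) (hw 3)) (mul_mem (hz 3) (hw 2))))
  · exact add_mem (add_mem (mul_mem (hz 0) (hw 2)) (mul_mem (hz 2) (hw 0)))
      (mul_mem ha (add_mem (mul_mem (hz 1) (hw 3)) (mul_mem (hz 3) (hw 1))))
  · exact add_mem (add_mem (add_mem (mul_mem (hz 0) (hw 3)) (mul_mem (hz 3) (hw 0)))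
      (mul_mem (hz 1) (hw 2))) (mul_mem (hz 2) (hw 1))

theorem four_mem {A : Subalgebra k K} {a b c e : K} (ha : a ∈ A) (hb : b ∈ A) (hc : c ∈ A)
    (he : e ∈ A) (j : Fin 4) : (![a, b, c, e] : Fin 4 → K) j ∈ A := by
  fin_cases j
  · exact ha
  · exact hb
  · exact hc
  · exact he

/-- up to a square power of `t = V (i+2) V (i+3) V (i+4)`, the elements of `Eo` have coordinates
in `O` -/
theorem Eo_vl [IsAlgClosed k] [CharP k 2] (d : PD k K) (i : Fin 5) {x : Fin 5 → K}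
    (hx : x = fun j => d.V (j + i)) {f : K} (hf : f ∈ d.Eo) :
    ∃ N, ∃ z : Fin 4 → K, (∀ j, z j ∈ d.O) ∧
      ((x 2 * x 3 * x 4) ^ N) ^ 2 * f = vl (x 0) (x 1) z := by
  have h2 : (2 : K) = 0 := two_eq_zero k K
  have hxO : ∀ j, x j ∈ d.O := fun j => by rw [hx]; exact d.V_mem_O _
  have hP : Pent x d.y (fun j => algebraMap k K (d.c (j + i))) := by
    rw [hx]; exact (pentK d).rot i
  have r0 : x 0 ^ 5 + x 2 ^ 5 * x 3 ^ 5 = 1 := hP.rel 0
  have r1 : x 1 ^ 5 + x 3 ^ 5 * x 4 ^ 5 = 1 := hP.rel 1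
  have r3 : x 3 ^ 5 + x 0 ^ 5 * x 1 ^ 5 = 1 := hP.rel 3
  have h0 : (0 : K) ∈ d.O := d.O.zero_mem
  have h1 : (1 : K) ∈ d.O := d.O.one_mem
  unfold PD.Eo at hf
  induction hf using Algebra.adjoin_induction with
  | mem f hf =>
    rcases hf with rfl | ⟨j, rfl⟩
    · exact ⟨0, ![d.y, 0, 0, 0], four_mem d.y_mem_O h0 h0 h0, by simp [vl]⟩
    · have ej : d.V j = x (j - i) := by rw [hx]; simp
      rw [ej]
      generalize j - i = l
      have hl : l = 0 ∨ l = 1 ∨ l = 2 ∨ l = 3 ∨ l = 4 := by revert l; decide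
      rcases hl with rfl | rfl | rfl | rfl | rfl
      · exact ⟨0, ![0, 1, 0, 0], four_mem h0 h1 h0 h0, by simp [vl]⟩
      · exact ⟨0, ![0, 0, 1, 0], four_mem h0 h0 h1 h0, by simp [vl]⟩
      · refine ⟨5, fun j => (x 2 ^ 3 * x 4 ^ 5) * (![1, x 0 ^ 2, x 0 ^ 5 * x 1 ^ 2,
          x 0 ^ 2 * x 1 ^ 2] : Fin 4 → K) j, vl_mul_mem
          (mul_mem (pow_mem (hxO _) _) (pow_mem (hxO _) _))
          (four_mem h1 (pow_mem (hxO _) _) (mul_mem (pow_mem (hxO _) _) (pow_mem (hxO _) _))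
            (mul_mem (pow_mem (hxO _) _) (pow_mem (hxO _) _))), ?_⟩
        rw [← sq_vl]
        simp only [vl, Matrix.cons_val]
        linear_combination x 2 ^ 6 * x 4 ^ 10 * (x 3 ^ 5 * r0 + (1 - x 0 ^ 5) * r3
          - (x 0 ^ 5 + x 0 ^ 5 * x 1 ^ 5) * h2)
      · refine ⟨2, fun j => (x 2 ^ 2 * x 4 ^ 2) * (![1, 0, 0, x 0 ^ 2 * x 1 ^ 2] : Fin 4 → K) j,
          vl_mul_mem
          (mul_mem (pow_mem (hxO _) _) (pow_mem (hxO _) _))
          (four_mem h1 h0 h0 (mul_mem (pow_mem (hxO _) _) (pow_mem (hxO _) _))), ?_⟩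
        rw [← sq_vl]
        simp only [vl, Matrix.cons_val]
        linear_combination x 2 ^ 4 * x 4 ^ 4 * (r3 - x 0 ^ 5 * x 1 ^ 5 * h2)
      · refine ⟨5, fun j => (x 2 ^ 5 * x 4 ^ 3) * (![1, x 0 ^ 2 * x 1 ^ 5, x 1 ^ 2,
          x 0 ^ 2 * x 1 ^ 2] : Fin 4 → K) j, vl_mul_mem
          (mul_mem (pow_mem (hxO _) _) (pow_mem (hxO _) _))
          (four_mem h1 (mul_mem (pow_mem (hxO _) _) (pow_mem (hxO _) _)) (pow_mem (hxO _) _)
            (mul_mem (pow_mem (hxO _) _) (pow_mem (hxO _) _))), ?_⟩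
        rw [← sq_vl]
        simp only [vl, Matrix.cons_val]
        linear_combination x 2 ^ 10 * x 4 ^ 6 * (x 3 ^ 5 * r1 + (1 - x 1 ^ 5) * r3
          - (x 1 ^ 5 + x 0 ^ 5 * x 1 ^ 5) * h2)
  | algebraMap r =>
    obtain ⟨s, hs⟩ := IsAlgClosed.exists_pow_nat_eq r (n := 2) (by norm_num)
    refine ⟨0, ![algebraMap k K s, 0, 0, 0], four_mem (d.O.algebraMap_mem _) h0 h0 h0, ?_⟩
    rw [← hs, map_pow]
    simp [vl]
  | add f g _ _ hf hg =>
    obtain ⟨N, z, hz, e⟩ := hf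
    obtain ⟨M, w, hw, e'⟩ := hg
    have ht : x 2 * x 3 * x 4 ∈ d.O := mul_mem (mul_mem (hxO _) (hxO _)) (hxO _)
    refine ⟨N + M, (fun j => (x 2 * x 3 * x 4) ^ M * z j) + fun j => (x 2 * x 3 * x 4) ^ N * w j,
      fun j => add_mem (mul_mem (pow_mem ht _) (hz j)) (mul_mem (pow_mem ht _) (hw j)), ?_⟩
    rw [← vl_add h2, ← sq_vl, ← sq_vl, ← e, ← e']
    ring
  | mul f g _ _ hf hg =>
    obtain ⟨N, z, hz, e⟩ := hf
    obtain ⟨M, w, hw, e'⟩ := hg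
    refine ⟨N + M, prd (x 0) (x 1) z w, prd_mem (hxO 0) (hxO 1) hz hw, ?_⟩
    rw [← vl_prd h2, ← e, ← e']
    ring

end CU90

/-- (`k` must be perfect here.) -/
theorem PD.det_mem [IsAlgClosed k] [CharP k 2] [CharP K 2] (d : PD k K)
    {B : Derivation k K (Derivation k K K)} (hB : IsBr d B) (D : Fr K [⋀^Fin 4]→ₗ[K] K)
    (hD : ∀ f h : K, D ![Fr.mk 1, Fr.mk f, Fr.mk h, Fr.mk (f * h)] = B f h)
    (v : Fin 4 → Fr K) (hv : ∀ i, Fr.mk.symm (v i) ∈ d.Eo) : D v ∈ d.O := by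
  refine d.loc fun i => ?_
  obtain ⟨d', hV, -, -⟩ := exists_rot d i
  choose N z hz hN using fun l => Eo_vl d i rfl (hv l)
  set t : K := d.V (2 + i) * d.V (3 + i) * d.V (4 + i) with ht
  have htO : t ∈ d.O := mul_mem (mul_mem (d.V_mem_O _) (d.V_mem_O _)) (d.V_mem_O _)
  set M := ∑ l, N l with hM
  have hle : ∀ l, N l ≤ M := fun l =>
    Finset.single_le_sum (f := N) (fun _ _ => Nat.zero_le _) (Finset.mem_univ l)
  refine ⟨4 * M, ?_⟩
  have e0 : (d.V (i + 2) * d.V (i + 3) * d.V (i + 4)) ^ (4 * M) * D v =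
      D (fun l => t ^ M • v l) := by
    have := D.toMultilinearMap.map_smul_univ (fun _ => t ^ M) v
    simp only [Finset.prod_const, Finset.card_univ, Fintype.card_fin, smul_eq_mul] at this
    change D (fun l => t ^ M • v l) = _ at this
    rw [this, ht, add_comm 2 i, add_comm 3 i, add_comm 4 i, ← pow_mul, mul_comm M 4]
    rfl
  have e1 : ∀ l, t ^ M • v l =
      Fr.mk (PB.val d' (fun j => t ^ (M - N l) * z l j)) := by
    intro l
    have h1 : PB.val d' (fun j => t ^ (M - N l) * z l j) =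
        vl (d.V (0 + i)) (d.V (1 + i)) (fun j => t ^ (M - N l) * z l j) := by
      unfold PB.val vl
      rw [hV, hV]
    have h3 : t ^ M • v l = Fr.mk ((t ^ M) ^ 2 * Fr.mk.symm (v l)) := rfl
    rw [h1, h3, ← sq_vl, ← hN l]
    congr 1
    have h4 : t ^ M = t ^ (M - N l) * t ^ N l := by
      rw [← pow_add, Nat.sub_add_cancel (hle l)]
    rw [h4]
    ring
  have e2 : D (bas d') = B (d.V (0 + i)) (d.V (1 + i)) := by
    rw [← hD, bas_coe, PB.b, hV, hV]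
  rw [e0, D.eq_smul_basis_det (bas d'), AlternatingMap.smul_apply, e2, smul_eq_mul,
    Basis.det_apply]
  refine mul_mem (BVV hB _ _) ?_
  have e3 : (bas d').toMatrix (fun l => t ^ M • v l) =
      (Matrix.of fun j l => (⟨t ^ (M - N l) * z l j, mul_mem (pow_mem htO _) (hz l j)⟩ : d.O)).map
        (algebraMap d.O K) := by
    ext j l
    rw [Basis.toMatrix_apply, e1, bas_repr]
    rfl
  rw [e3, ← RingHom.mapMatrix_apply, ← RingHom.map_det]
  exact Subtype.mem _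

theorem PD.det_span [CharP k 2] [CharP K 2] (d : PD k K)
    {B : Derivation k K (Derivation k K K)} (hB : IsBr d B) (D : Fr K [⋀^Fin 4]→ₗ[K] K)
    (hD : ∀ f h : K, D ![Fr.mk 1, Fr.mk f, Fr.mk h, Fr.mk (f * h)] = B f h) :
    (1 : K) ∈ Submodule.span d.O
      {x | ∃ v : Fin 4 → Fr K, (∀ i, Fr.mk.symm (v i) ∈ d.Eo) ∧ x = D v} := by
  have hVE : ∀ i, d.V i ∈ d.Eo := fun i => Algebra.subset_adjoin (Or.inr ⟨i, rfl⟩)
  have h := d.loc_top 9
  refine (Submodule.span_le.2 ?_) h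
  rintro _ ⟨i, rfl⟩
  have h1 : B (d.V i) (d.V (i + 1)) ∈ Submodule.span d.O
      {x | ∃ v : Fin 4 → Fr K, (∀ i, Fr.mk.symm (v i) ∈ d.Eo) ∧ x = D v} := by
    refine Submodule.subset_span ⟨_, ?_, (hD (d.V i) (d.V (i + 1))).symm⟩
    intro j
    fin_cases j
    · exact d.Eo.one_mem
    · exact hVE i
    · exact hVE (i + 1)
    · exact mul_mem (hVE i) (hVE (i + 1))
  have h2 := Submodule.smul_mem _ (⟨d.V (i + 2) ^ 5 * d.V (i + 4) ^ 5,
    mul_mem (pow_mem (d.V_mem_O _) _) (pow_mem (d.V_mem_O _) _)⟩ : d.O) h1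
  rw [hB.adj i] at h2
  have e : (d.V (i + 2) * d.V (i + 3) * d.V (i + 4)) ^ 9 =
      (⟨d.V (i + 2) ^ 5 * d.V (i + 4) ^ 5,
        mul_mem (pow_mem (d.V_mem_O _) _) (pow_mem (d.V_mem_O _) _)⟩ : d.O) •
      (d.V (i + 3) ^ 9 * d.V (i + 2) ^ 4 * d.V (i + 4) ^ 4) := by
    change _ = (d.V (i + 2) ^ 5 * d.V (i + 4) ^ 5) *
      (d.V (i + 3) ^ 9 * d.V (i + 2) ^ 4 * d.V (i + 4) ^ 4)
    ring
  change (d.V (i + 2) * d.V (i + 3) * d.V (i + 4)) ^ 9 ∈ _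
  rw [e]
  exact h2

end Pool.Agent.helper97.BG
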