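import Pool.Agent.helper97.BG.SigDefs

/-!
# Module CAN + UNR: the pure algebra
-/

namespace Pool.Agent.helper97.BG
namespace CU90

/-- The relations of the pentagon algebra. -/
structure Pent {R : Type*} [CommRing R] (x : Fin 5 → R) (η : R) (c : Fin 5 → R) : Prop where
  rel : ∀ i, x i ^ 5 + x (i + 2) ^ 5 * x (i + 3) ^ 5 = 1
  yrel : η ^ 5 = ∑ i, c i * x i ^ 5

variable {R S : Type*} [CommRing R] [CommRing S] {x : Fin 5 → R} {η : R} {c : Fin 5 → R}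

theorem Pent.rot (h : Pent x η c) (i : Fin 5) :
    Pent (fun j => x (j + i)) η (fun j => c (j + i)) where
  rel j := by
    have h1 := h.rel (j + i)
    rw [add_right_comm j i 2, add_right_comm j i 3] at h1
    exact h1
  yrel := by
    rw [h.yrel]
    exact (Equiv.sum_comp (Equiv.addRight i) (fun j => c j * x j ^ 5)).symm

theorem Pent.map (h : Pent x η c) (f : R →+* S) :
    Pent (fun i => f (x i)) (f η) (fun i => f (c i)) where
  rel i := by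
    have h1 := congrArg f (h.rel i)
    simpa using h1
  yrel := by
    have h1 := congrArg f h.yrel
    simpa [map_sum] using h1

theorem Pent.triple0 [IsDomain R] (h : Pent x η c) (h0 : x 0 = 0) :
    (x 2 ≠ 0 ∧ x 3 ≠ 0 ∧ x 4 ≠ 0) ∨ (x 1 ≠ 0 ∧ x 2 ≠ 0 ∧ x 3 ≠ 0) := by
  have r2 : x 2 ^ 5 + x 4 ^ 5 * x 0 ^ 5 = 1 := h.rel 2
  have r3 : x 3 ^ 5 + x 0 ^ 5 * x 1 ^ 5 = 1 := h.rel 3
  have r1 : x 1 ^ 5 + x 3 ^ 5 * x 4 ^ 5 = 1 := h.rel 1
  rw [h0] at r2 r3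
  have e2 : x 2 ≠ 0 := fun h => by rw [h] at r2; simp at r2
  have e3 : x 3 ≠ 0 := fun h => by rw [h] at r3; simp at r3
  by_cases h4 : x 4 = 0
  · right
    refine ⟨fun h => ?_, e2, e3⟩
    rw [h, h4] at r1; simp at r1
  · exact Or.inl ⟨e2, e3, h4⟩

theorem Pent.triple [IsDomain R] (h : Pent x η c) :
    ∃ i, x (2 + i) ≠ 0 ∧ x (3 + i) ≠ 0 ∧ x (4 + i) ≠ 0 := by
  by_cases hj : ∃ j, x j = 0
  · obtain ⟨j, hj⟩ := hj
    rcases (h.rot j).triple0 (by simpa using hj) with h1 | h1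
    · exact ⟨j, h1⟩
    · refine ⟨4 + j, ?_, ?_, ?_⟩
      · rw [← add_assoc]; exact h1.1
      · rw [← add_assoc]; exact h1.2.1
      · rw [← add_assoc]; exact h1.2.2
  · push Not at hj
    exact ⟨0, hj _, hj _, hj _⟩

/-- `X` -/
def XX (x c : Fin 5 → R) : R := c 0 + c 2 + c 1 * (x 1 ^ 5) ^ 2
/-- `Y` -/
def YY (x c : Fin 5 → R) : R := c 1 + c 4 + c 0 * (x 0 ^ 5) ^ 2

theorem core [IsDomain R] (h2 : (2 : R) = 0) (h : Pent x η c) (hη : η = 0)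
    (a1 : c 4 + c 1 ≠ 0) (a2 : c 0 + c 2 ≠ 0) (a3 : c 2 + c 3 + c 4 ≠ 0)
    (a4 : ∑ i, c i * c (i + 1) * c (i + 2) ≠ 0)
    (hX : x 0 ^ 4 * XX x c = 0) (hY : x 1 ^ 4 * YY x c = 0) : False := by
  have r0 : x 0 ^ 5 + x 2 ^ 5 * x 3 ^ 5 = 1 := h.rel 0
  have r1 : x 1 ^ 5 + x 3 ^ 5 * x 4 ^ 5 = 1 := h.rel 1
  have r2 : x 2 ^ 5 + x 4 ^ 5 * x 0 ^ 5 = 1 := h.rel 2
  have r3 : x 3 ^ 5 + x 0 ^ 5 * x 1 ^ 5 = 1 := h.rel 3
  have r4 : x 4 ^ 5 + x 1 ^ 5 * x 2 ^ 5 = 1 := h.rel 4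
  have hy := h.yrel
  rw [hη, Fin.sum_univ_five, zero_pow (by norm_num)] at hy
  rw [Fin.sum_univ_five] at a4
  change c 0 * c 1 * c 2 + c 1 * c 2 * c 3 + c 2 * c 3 * c 4 + c 3 * c 4 * c 0 + c 4 * c 0 * c 1
    ≠ 0 at a4
  unfold XX at hX
  unfold YY at hY
  by_cases h0 : x 0 = 0
  · rw [h0] at r2 r3 hy hY
    have e3 : x 3 ^ 5 = 1 := by linear_combination r3
    have e2 : x 2 ^ 5 = 1 := by linear_combination r2
    have hY' : x 1 ^ 4 * (c 4 + c 1) = 0 := by linear_combination hY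
    have h1 : x 1 = 0 := by
      rcases mul_eq_zero.1 hY' with h | h
      · exact pow_eq_zero_iff (by norm_num) |>.1 h
      · exact absurd h a1
    rw [h1] at r4 hy
    exact a3 (by linear_combination -hy - c 2 * e2 - c 3 * e3 + c 4 * (-r4))
  by_cases h1 : x 1 = 0
  · rw [h1] at hX
    have hX' : x 0 ^ 4 * (c 0 + c 2) = 0 := by linear_combination hX
    rcases mul_eq_zero.1 hX' with h | h
    · exact h0 (pow_eq_zero_iff (by norm_num) |>.1 h)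
    · exact a2 h
  have hX' : c 0 + c 2 + c 1 * (x 1 ^ 5) ^ 2 = 0 :=
    (mul_eq_zero.1 hX).resolve_left (pow_ne_zero _ h0)
  have hY' : c 1 + c 4 + c 0 * (x 0 ^ 5) ^ 2 = 0 :=
    (mul_eq_zero.1 hY).resolve_left (pow_ne_zero _ h1)
  clear hX hY h0 h1 h
  generalize x 0 ^ 5 = a at *
  generalize x 1 ^ 5 = b at *
  generalize x 2 ^ 5 = v2 at *
  generalize x 3 ^ 5 = v3 at *
  generalize x 4 ^ 5 = v4 at *
  clear hη
  have hG : (c 2 + c 3 + c 4) + (c 0 + c 2) * a + (c 1 + c 4) * b + c 0 * a ^ 2 * b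
      + c 1 * a * b ^ 2 + c 3 * a ^ 2 * b ^ 2 = 0 := by
    have e3 : v3 = 1 - a * b := by linear_combination r3
    have : v3 * (c 0 * a + c 1 * b + c 2 * v2 + c 3 * v3 + c 4 * v4) = 0 := by
      rw [← hy, mul_zero]
    have e23 : v2 * v3 = 1 - a := by linear_combination r0
    have e34 : v3 * v4 = 1 - b := by linear_combination r1
    have e : c 0 * a * (1 - a * b) + c 1 * b * (1 - a * b) + c 2 * (1 - a)
      + c 3 * (1 - a * b) ^ 2 + c 4 * (1 - b) = 0 := by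
      rw [← e3, ← e23, ← e34]; linear_combination this
    linear_combination e + (c 2 * a + c 4 * b + c 0 * a ^ 2 * b + c 1 * a * b ^ 2
      + c 3 * a * b) * h2
  exact a4 (by linear_combination c 0 * c 1 * hG
    + (c 0 * c 1 * a + c 3 * (c 1 + c 4 + c 0 * a ^ 2) + c 3 * (c 1 + c 4)) * hX'
    + (c 0 * c 1 * b + c 3 * (c 0 + c 2)) * hY'
    - (c 0 * c 1 * c 3 + c 3 * (c 0 + c 2) * (c 1 + c 4)
      + c 0 * c 1 * ((c 0 + c 2) * a + (c 1 + c 4) * b + c 0 * a ^ 2 * b + c 1 * a * b ^ 2)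
      + c 3 * ((c 0 + c 2) * c 0 * a ^ 2 + (c 1 + c 4) * c 1 * b ^ 2)
      + c 0 * c 1 * c 3 * a ^ 2 * b ^ 2) * h2)

end CU90
end Pool.Agent.helper97.BG
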