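import Pool.Agent.helper90.BG.CAN

/-!
# Module UNR: the surface is unramified over a plane at every point
-/

namespace Pool.Agent.helper97.BG

open Module

variable {k K : Type*} [Field k] [Field K] [Algebra k K]

namespace CU90

section
variable {O : Type*} [CommRing O] [Algebra k O] {M : Type*} [AddCommGroup M] [Module O M]
  [Module k M]

theorem d5 (h2 : (2 : O) = 0) (D : Derivation k O M) (x : O) : D (x ^ 5) = x ^ 4 • D x := by
  rw [Derivation.leibniz_pow, show (5 : ℕ) - 1 = 4 from rfl]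
  have : (5 : ℕ) • (x ^ 4 • D x) = ((2 : O) * 2) • (x ^ 4 • D x) + x ^ 4 • D x := by
    rw [← Nat.cast_smul_eq_nsmul O, show ((5 : ℕ) : O) = 2 * 2 + 1 by norm_num, add_smul, one_smul]
  rw [this, h2]
  simp

theorem neg2 (h2 : (2 : O) = 0) (m : M) : -m = m := by
  have h : (2 : O) • m = 0 := by rw [h2, zero_smul]
  rw [two_smul] at h
  exact neg_eq_of_add_eq_zero_left h

/-- the differentials of the relations -/
theorem drel (h2 : (2 : O) = 0) (D : Derivation k O M) {x : Fin 5 → O} {y : O} {c : Fin 5 → O}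
    (P : Pent x y c) (i : Fin 5) :
    x i ^ 4 • D (x i) = x (i + 2) ^ 5 • (x (i + 3) ^ 4 • D (x (i + 3))) +
      x (i + 3) ^ 5 • (x (i + 2) ^ 4 • D (x (i + 2))) := by
  have h := congrArg D (P.rel i)
  rw [map_add, Derivation.leibniz, d5 h2, d5 h2, d5 h2, Derivation.map_one_eq_zero] at h
  rw [← neg2 h2 (x i ^ 4 • D (x i))]
  exact neg_eq_of_add_eq_zero_right h

theorem dyrel (h2 : (2 : O) = 0) (D : Derivation k O M) {x : Fin 5 → O} {y : O} {c : Fin 5 → O}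
    (P : Pent x y c) (hc : ∀ i, D (c i) = 0) :
    y ^ 4 • D y = ∑ i, c i • (x i ^ 4 • D (x i)) := by
  have h := congrArg D P.yrel
  rw [d5 h2, map_sum] at h
  rw [h]
  refine Finset.sum_congr rfl fun i _ => ?_
  rw [Derivation.leibniz, d5 h2, hc, smul_zero, add_zero]

theorem memA (h2 : (2 : O) = 0) (D : Derivation k O M) {x : Fin 5 → O} {y : O} {c : Fin 5 → O}
    (P : Pent x y c) (N : Submodule O M) (G : O) (h0 : G • D (x 0) ∈ N) (h1 : G • D (x 1) ∈ N)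
    (j : Fin 5) : ((x 2 * x 3 * x 4) ^ 5 * G) • D (x j) ∈ N := by
  have r0 : x 0 ^ 4 • D (x 0) = x 2 ^ 5 • (x 3 ^ 4 • D (x 3)) + x 3 ^ 5 • (x 2 ^ 4 • D (x 2)) :=
    drel h2 D P 0
  have r1 : x 1 ^ 4 • D (x 1) = x 3 ^ 5 • (x 4 ^ 4 • D (x 4)) + x 4 ^ 5 • (x 3 ^ 4 • D (x 3)) :=
    drel h2 D P 1
  have r3 : x 3 ^ 4 • D (x 3) = x 0 ^ 5 • (x 1 ^ 4 • D (x 1)) + x 1 ^ 5 • (x 0 ^ 4 • D (x 0)) :=
    drel h2 D P 3
  have e3 : (G * x 3 ^ 4) • D (x 3) ∈ N := by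
    have : (G * x 3 ^ 4) • D (x 3) = (x 0 ^ 5 * x 1 ^ 4) • (G • D (x 1)) +
        (x 1 ^ 5 * x 0 ^ 4) • (G • D (x 0)) := by
      rw [mul_smul, r3]; module
    rw [this]
    exact N.add_mem (N.smul_mem _ h1) (N.smul_mem _ h0)
  have e2 : (G * x 3 ^ 5 * x 2 ^ 4) • D (x 2) ∈ N := by
    have : (G * x 3 ^ 5 * x 2 ^ 4) • D (x 2) = x 0 ^ 4 • (G • D (x 0)) -
        x 2 ^ 5 • ((G * x 3 ^ 4) • D (x 3)) := by
      have : x 0 ^ 4 • (G • D (x 0)) = G • (x 0 ^ 4 • D (x 0)) := by module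
      rw [this, r0]; module
    rw [this]
    exact N.sub_mem (N.smul_mem _ h0) (N.smul_mem _ e3)
  have e4 : (G * x 3 ^ 5 * x 4 ^ 4) • D (x 4) ∈ N := by
    have : (G * x 3 ^ 5 * x 4 ^ 4) • D (x 4) = x 1 ^ 4 • (G • D (x 1)) -
        x 4 ^ 5 • ((G * x 3 ^ 4) • D (x 3)) := by
      have : x 1 ^ 4 • (G • D (x 1)) = G • (x 1 ^ 4 • D (x 1)) := by module
      rw [this, r1]; module
    rw [this]
    exact N.sub_mem (N.smul_mem _ h1) (N.smul_mem _ e3)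
  have hj : j = 0 ∨ j = 1 ∨ j = 2 ∨ j = 3 ∨ j = 4 := by revert j; decide
  rcases hj with rfl | rfl | rfl | rfl | rfl
  · rw [mul_smul]; exact N.smul_mem _ h0
  · rw [mul_smul]; exact N.smul_mem _ h1
  · have : ((x 2 * x 3 * x 4) ^ 5 * G) • D (x 2) =
      (x 2 * x 4 ^ 5) • ((G * x 3 ^ 5 * x 2 ^ 4) • D (x 2)) := by module
    rw [this]; exact N.smul_mem _ e2
  · have : ((x 2 * x 3 * x 4) ^ 5 * G) • D (x 3) =
      (x 2 ^ 5 * x 4 ^ 5 * x 3) • ((G * x 3 ^ 4) • D (x 3)) := by module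
    rw [this]; exact N.smul_mem _ e3
  · have : ((x 2 * x 3 * x 4) ^ 5 * G) • D (x 4) =
      (x 2 ^ 5 * x 4) • ((G * x 3 ^ 5 * x 4 ^ 4) • D (x 4)) := by module
    rw [this]; exact N.smul_mem _ e4

theorem mainid (h2 : (2 : O) = 0) (D : Derivation k O M) {x : Fin 5 → O} {y : O} {c : Fin 5 → O}
    (P : Pent x y c) (hc : ∀ i, D (c i) = 0) :
    (x 3 ^ 5 * y ^ 4) • D y = ((XX x c + x 1 ^ 5 * y ^ 5) * x 0 ^ 4) • D (x 0) +
      ((YY x c + x 0 ^ 5 * y ^ 5) * x 1 ^ 4) • D (x 1) := by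
  have r0 : x 0 ^ 4 • D (x 0) = x 2 ^ 5 • (x 3 ^ 4 • D (x 3)) + x 3 ^ 5 • (x 2 ^ 4 • D (x 2)) :=
    drel h2 D P 0
  have r1 : x 1 ^ 4 • D (x 1) = x 3 ^ 5 • (x 4 ^ 4 • D (x 4)) + x 4 ^ 5 • (x 3 ^ 4 • D (x 3)) :=
    drel h2 D P 1
  have r3 : x 3 ^ 4 • D (x 3) = x 0 ^ 5 • (x 1 ^ 4 • D (x 1)) + x 1 ^ 5 • (x 0 ^ 4 • D (x 0)) :=
    drel h2 D P 3
  have hy := dyrel h2 D P hc
  rw [Fin.sum_univ_five] at hy
  have q0 : x 0 ^ 5 + x 2 ^ 5 * x 3 ^ 5 = 1 := P.rel 0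
  have q1 : x 1 ^ 5 + x 3 ^ 5 * x 4 ^ 5 = 1 := P.rel 1
  have q3 : x 3 ^ 5 + x 0 ^ 5 * x 1 ^ 5 = 1 := P.rel 3
  have hyr := P.yrel
  rw [Fin.sum_univ_five] at hyr
  unfold XX YY
  rw [hyr, mul_smul, hy]
  have e2 : x 3 ^ 5 • (x 2 ^ 4 • D (x 2)) = x 0 ^ 4 • D (x 0) - x 2 ^ 5 • (x 3 ^ 4 • D (x 3)) := by
    rw [r0]; module
  have e4 : x 3 ^ 5 • (x 4 ^ 4 • D (x 4)) = x 1 ^ 4 • D (x 1) - x 4 ^ 5 • (x 3 ^ 4 • D (x 3)) := by
    rw [r1]; module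
  have E : x 3 ^ 5 • (c 0 • x 0 ^ 4 • D (x 0) + c 1 • x 1 ^ 4 • D (x 1) + c 2 • x 2 ^ 4 • D (x 2) +
      c 3 • x 3 ^ 4 • D (x 3) + c 4 • x 4 ^ 4 • D (x 4)) =
      ((c 0 * x 3 ^ 5 + c 2 - c 2 * x 2 ^ 5 * x 1 ^ 5 + c 3 * x 3 ^ 5 * x 1 ^ 5
        - c 4 * x 4 ^ 5 * x 1 ^ 5) * x 0 ^ 4) • D (x 0) +
      ((c 1 * x 3 ^ 5 - c 2 * x 2 ^ 5 * x 0 ^ 5 + c 3 * x 3 ^ 5 * x 0 ^ 5 + c 4
        - c 4 * x 4 ^ 5 * x 0 ^ 5) * x 1 ^ 4) • D (x 1) := by
    have : x 3 ^ 5 • (c 0 • x 0 ^ 4 • D (x 0) + c 1 • x 1 ^ 4 • D (x 1) + c 2 • x 2 ^ 4 • D (x 2) +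
      c 3 • x 3 ^ 4 • D (x 3) + c 4 • x 4 ^ 4 • D (x 4)) =
      (c 0 * x 3 ^ 5 * x 0 ^ 4) • D (x 0) + (c 1 * x 3 ^ 5 * x 1 ^ 4) • D (x 1) +
      c 2 • (x 3 ^ 5 • (x 2 ^ 4 • D (x 2))) + (c 3 * x 3 ^ 5) • (x 3 ^ 4 • D (x 3)) +
      c 4 • (x 3 ^ 5 • (x 4 ^ 4 • D (x 4))) := by module
    rw [this, e2, e4, r3]
    module
  rw [E]
  congr 2
  · linear_combination x 0 ^ 4 * c 0 * q3 - x 0 ^ 4 * (c 0 * x 0 ^ 5 * x 1 ^ 5
      + c 1 * (x 1 ^ 5) ^ 2 + c 2 * x 2 ^ 5 * x 1 ^ 5 + c 4 * x 4 ^ 5 * x 1 ^ 5) * h2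
  · linear_combination x 1 ^ 4 * c 1 * q3 - x 1 ^ 4 * (c 1 * x 0 ^ 5 * x 1 ^ 5
      + c 0 * (x 0 ^ 5) ^ 2 + c 2 * x 2 ^ 5 * x 0 ^ 5 + c 4 * x 4 ^ 5 * x 0 ^ 5) * h2

end

/-- from the generators to the whole ring -/
theorem mem_all (d : PD k K) {M : Type*} [AddCommGroup M] [Module d.O M] [Module k M]
    [IsScalarTower k d.O M]
    (D : Derivation k d.O M) (N : Submodule d.O M) (f : d.O)
    (hV : ∀ i, f • D ⟨d.V i, d.V_mem_O i⟩ ∈ N) (hy : f • D ⟨d.y, d.y_mem_O⟩ ∈ N) (z : d.O) :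
    f • D z ∈ N := by
  obtain ⟨z, hz⟩ := z
  have hz' := hz
  unfold PD.O at hz'
  induction hz' using Algebra.adjoin_induction with
  | mem z hz' =>
    rcases hz' with rfl | ⟨i, rfl⟩
    · exact hy
    · exact hV i
  | algebraMap r =>
    have : D (⟨algebraMap k K r, hz⟩ : d.O) = 0 := D.map_algebraMap r
    rw [this, smul_zero]
    exact N.zero_mem
  | add a b ha' hb' ha hb =>
    have : D (⟨a + b, hz⟩ : d.O) = D ⟨a, ha'⟩ + D ⟨b, hb'⟩ := D.map_add ⟨a, ha'⟩ ⟨b, hb'⟩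
    rw [this, smul_add]
    exact N.add_mem (ha ha') (hb hb')
  | mul a b ha' hb' ha hb =>
    have : D (⟨a * b, hz⟩ : d.O) = (⟨a, ha'⟩ : d.O) • D ⟨b, hb'⟩ + (⟨b, hb'⟩ : d.O) • D ⟨a, ha'⟩ :=
      D.leibniz ⟨a, ha'⟩ ⟨b, hb'⟩
    rw [this, smul_add, smul_comm f, smul_comm f]
    exact N.add_mem (N.smul_mem _ (hb hb')) (N.smul_mem _ (ha ha'))

end CU90

open CU90

theorem PD.unr [CharP k 2] (d : PD k K) (hc : Adm d.c) (p : Ideal d.O) [p.IsPrime] :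
    ∃ s t f : d.O, f ∉ p ∧ ∀ x : d.O, f • KaehlerDifferential.D k d.O x ∈
      Submodule.span d.O {KaehlerDifferential.D k d.O s, KaehlerDifferential.D k d.O t} := by
  have h2k : (2 : k) = 0 := by exact_mod_cast CharP.cast_eq_zero k 2
  have h2O : (2 : d.O) = 0 := by
    have := congrArg (algebraMap k d.O) h2k
    rwa [map_ofNat, map_zero] at this
  have h2 : (2 : d.O ⧸ p) = 0 := by
    have := congrArg (algebraMap k (d.O ⧸ p)) h2k
    rwa [map_ofNat, map_zero] at this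
  set π := Ideal.Quotient.mk p with hπ
  have hπ0 : ∀ z : d.O, π z ≠ 0 → z ∉ p := fun z hz h => hz (Ideal.Quotient.eq_zero_iff_mem.2 h)
  set X : Fin 5 → d.O := fun i => ⟨d.V i, d.V_mem_O i⟩ with hX
  set Y : d.O := ⟨d.y, d.y_mem_O⟩ with hY
  set C : Fin 5 → d.O := fun i => algebraMap k d.O (d.c i) with hC
  have P : Pent (fun i => π (X i)) (π Y) (fun i => π (C i)) := (pentO d).map π
  obtain ⟨i, t2, t3, t4⟩ := P.triple
  have P' := P.rot i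
  have PO : Pent (fun j => X (j + i)) Y (fun j => C (j + i)) := (pentO d).rot i
  set D := KaehlerDifferential.D k d.O with hD
  have hC0 : ∀ j, D (C (j + i)) = 0 := fun j => D.map_algebraMap _
  have hy := dyrel h2O D PO hC0
  have hm := mainid h2O D PO hC0
  set F : d.O := (X (2 + i) * X (3 + i) * X (4 + i)) ^ 5 with hF
  have hFπ : π F ≠ 0 := by
    rw [hF, map_pow, map_mul, map_mul]
    exact pow_ne_zero _ (mul_ne_zero (mul_ne_zero t2 t3) t4)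
  have hsurj : ∀ (N : Submodule d.O (Ω[d.O⁄k])) (f : d.O), (∀ j, f • D (X (j + i)) ∈ N) →
      f • D Y ∈ N → ∀ z, f • D z ∈ N := by
    intro N f h1 h2 z
    refine mem_all d D N f (fun j => ?_) h2 z
    have := h1 (j - i)
    rwa [sub_add_cancel] at this
  by_cases hYp : π Y = 0
  · obtain ⟨a1, a2, a3, a4⟩ := adm_core hc (π.comp (algebraMap k d.O)) i
    by_cases hXX : π (X (0 + i)) ^ 4 * XX (fun j => π (X (j + i))) (fun j => π (C (j + i))) = 0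
    · -- use `YY`
      have hYY : π (X (1 + i)) ^ 4 * YY (fun j => π (X (j + i))) (fun j => π (C (j + i))) ≠ 0 :=
        fun h => core h2 P' hYp a1 a2 a3 a4 hXX h
      set G : d.O := (YY (fun j => X (j + i)) (fun j => C (j + i)) + X (0 + i) ^ 5 * Y ^ 5) *
        X (1 + i) ^ 4 with hG
      have hGπ : π G ≠ 0 := by
        rw [hG, map_mul, map_add, map_mul, map_pow, map_pow, map_pow, hYp, YY_map]
        intro h
        exact hYY (by linear_combination h)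
      refine ⟨X (0 + i), Y, F * G, hπ0 _ (by rw [map_mul]; exact mul_ne_zero hFπ hGπ), ?_⟩
      set N := Submodule.span d.O {D (X (0 + i)), D Y} with hN
      have n0 : D (X (0 + i)) ∈ N := Submodule.subset_span (Or.inl rfl)
      have nY : D Y ∈ N := Submodule.subset_span (Or.inr rfl)
      refine hsurj N _ (memA h2O D PO N G (N.smul_mem _ n0) ?_) (N.smul_mem _ nY)
      have e : G • D (X (1 + i)) = (X (3 + i) ^ 5 * Y ^ 4) • D Y -
        ((XX (fun j => X (j + i)) (fun j => C (j + i)) + X (1 + i) ^ 5 * Y ^ 5) *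
          X (0 + i) ^ 4) • D (X (0 + i)) := by
        rw [hm, hG]; abel
      rw [e]
      exact N.sub_mem (N.smul_mem _ nY) (N.smul_mem _ n0)
    · set G : d.O := (XX (fun j => X (j + i)) (fun j => C (j + i)) + X (1 + i) ^ 5 * Y ^ 5) *
        X (0 + i) ^ 4 with hG
      have hGπ : π G ≠ 0 := by
        rw [hG, map_mul, map_add, map_mul, map_pow, map_pow, map_pow, hYp, XX_map]
        intro h
        exact hXX (by linear_combination h)
      refine ⟨X (1 + i), Y, F * G, hπ0 _ (by rw [map_mul]; exact mul_ne_zero hFπ hGπ), ?_⟩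
      set N := Submodule.span d.O {D (X (1 + i)), D Y} with hN
      have n0 : D (X (1 + i)) ∈ N := Submodule.subset_span (Or.inl rfl)
      have nY : D Y ∈ N := Submodule.subset_span (Or.inr rfl)
      refine hsurj N _ (memA h2O D PO N G ?_ (N.smul_mem _ n0)) (N.smul_mem _ nY)
      have e : G • D (X (0 + i)) = (X (3 + i) ^ 5 * Y ^ 4) • D Y -
        ((YY (fun j => X (j + i)) (fun j => C (j + i)) + X (0 + i) ^ 5 * Y ^ 5) *
          X (1 + i) ^ 4) • D (X (1 + i)) := by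
        rw [hm, hG]; abel
      rw [e]
      exact N.sub_mem (N.smul_mem _ nY) (N.smul_mem _ n0)
  · refine ⟨X (0 + i), X (1 + i), F * Y ^ 4, hπ0 _ (by
      rw [map_mul, map_pow]; exact mul_ne_zero hFπ (pow_ne_zero _ hYp)), ?_⟩
    set N := Submodule.span d.O {D (X (0 + i)), D (X (1 + i))} with hN
    have n0 : D (X (0 + i)) ∈ N := Submodule.subset_span (Or.inl rfl)
    have n1 : D (X (1 + i)) ∈ N := Submodule.subset_span (Or.inr rfl)
    have hF1 : ∀ j, F • D (X (j + i)) ∈ N := by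
      intro j
      have := memA h2O D PO N 1 (N.smul_mem _ n0) (N.smul_mem _ n1) j
      rwa [mul_one] at this
    refine hsurj N _ (fun j => ?_) ?_
    · rw [mul_comm, mul_smul]
      exact N.smul_mem _ (hF1 j)
    · rw [mul_smul, hy, Finset.smul_sum]
      refine N.sum_mem fun j _ => ?_
      rw [smul_comm F, smul_comm F]
      exact N.smul_mem _ (N.smul_mem _ (hF1 j))

end Pool.Agent.helper97.BG
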